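import Pool.Agent.MP_5f4cdd_gt.LJ.Stmt

set_option autoImplicit false
open Set MeasureTheory Metric Filter Topology
open scoped ENNReal Real Matrix

namespace Pool.Agent.MP_5f4cdd_gt.LJ

lemma cont_Center {N : ℕ} {K : Set (Fin N → ℝ)} (hK : IsCompact K) :
    Continuous fun y : Fin N → ℝ => sSup ((fun x : Fin N → ℝ => ∑ i, x i * y i) '' K) := by
  refine hK.continuous_sSup (f := fun (y : Fin N → ℝ) (x : Fin N → ℝ) => ∑ i, x i * y i) ?_
  show Continuous fun p : (Fin N → ℝ) × (Fin N → ℝ) => ∑ i, p.2 i * p.1 i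
  fun_prop

lemma bdd_Center {N : ℕ} {K : Set (Fin N → ℝ)} (hK : IsCompact K) (y : Fin N → ℝ) :
    BddAbove ((fun x : Fin N → ℝ => ∑ i, x i * y i) '' K) :=
  (hK.image (by fun_prop)).bddAbove

lemma shift_Center {N : ℕ} {K : Set (Fin N → ℝ)} (hK : IsCompact K) (hne : K.Nonempty)
    (c y : Fin N → ℝ) :
    sSup ((fun x : Fin N → ℝ => ∑ i, x i * y i) '' K) ≤
      sSup ((fun x : Fin N → ℝ => ∑ i, x i * y i) '' ((fun x => x - c) '' K)) +
        ∑ i, c i * y i := by
  have hK0 : IsCompact ((fun x => x - c) '' K) := hK.image (by fun_prop)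
  refine csSup_le (hne.image _) ?_
  rintro _ ⟨x, hx, rfl⟩
  have h1 : ∑ i, (x - c) i * y i ≤
      sSup ((fun x : Fin N → ℝ => ∑ i, x i * y i) '' ((fun x => x - c) '' K)) :=
    le_csSup (bdd_Center hK0 y) ⟨x - c, ⟨x, hx, rfl⟩, rfl⟩
  have h2 : ∑ i, x i * y i = ∑ i, (x - c) i * y i + ∑ i, c i * y i := by
    rw [← Finset.sum_add_distrib]
    refine Finset.sum_congr rfl fun i _ => ?_
    simp only [Pi.sub_apply]; ring
  show ∑ i, x i * y i ≤ _
  linarith

lemma even_Center {N : ℕ} {K : Set (Fin N → ℝ)} (hs : ∀ x ∈ K, -x ∈ K) (y : Fin N → ℝ) :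
    ((fun x : Fin N → ℝ => ∑ i, x i * (-y) i) '' K) =
      ((fun x : Fin N → ℝ => ∑ i, x i * y i) '' K) := by
  ext t
  constructor
  · rintro ⟨x, hx, rfl⟩
    refine ⟨-x, hs x hx, Finset.sum_congr rfl fun i _ => ?_⟩
    simp only [Pi.neg_apply]; ring
  · rintro ⟨x, hx, rfl⟩
    refine ⟨-x, hs x hx, Finset.sum_congr rfl fun i _ => ?_⟩
    simp only [Pi.neg_apply]; ring

lemma avg_Center {N : ℕ} (g : (Fin N → ℝ) → ℝ) (hg : Continuous g) (he : ∀ y, g (-y) = g y)
    (c : Fin N → ℝ) :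
    ∫⁻ y : Fin N → ℝ, ENNReal.ofReal (Real.exp (-g y)) ≤
      ∫⁻ y : Fin N → ℝ, ENNReal.ofReal (Real.exp (-(g y + ∑ i, c i * y i))) := by
  set F : (Fin N → ℝ) → ℝ≥0∞ := fun y => ENNReal.ofReal (Real.exp (-(g y + ∑ i, c i * y i)))
    with hF
  have hFm : Measurable F := by
    refine ENNReal.measurable_ofReal.comp (Continuous.measurable ?_)
    fun_prop
  have h1 : ∫⁻ y, F (-y) = ∫⁻ y, F y := lintegral_neg_eq_self F
  have h2 : ∀ y, 2 * ENNReal.ofReal (Real.exp (-g y)) ≤ F y + F (-y) := by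
    intro y
    have hs : ∑ i, c i * (-y) i = -∑ i, c i * y i := by
      rw [← Finset.sum_neg_distrib]
      refine Finset.sum_congr rfl fun i _ => ?_
      simp only [Pi.neg_apply]; ring
    simp only [hF, he, hs]
    rw [← ENNReal.ofReal_add (Real.exp_pos _).le (Real.exp_pos _).le,
      show (2 : ℝ≥0∞) = ENNReal.ofReal 2 by simp, ← ENNReal.ofReal_mul (by norm_num)]
    refine ENNReal.ofReal_le_ofReal ?_
    set t := ∑ i, c i * y i
    have e1 : Real.exp (-(g y + t)) = Real.exp (-g y) * Real.exp (-t) := by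
      rw [← Real.exp_add]; ring_nf
    have e2 : Real.exp (-(g y + -t)) = Real.exp (-g y) * Real.exp t := by
      rw [← Real.exp_add]; ring_nf
    have e3 := Real.add_one_le_exp t
    have e4 := Real.add_one_le_exp (-t)
    have e5 := Real.exp_pos (-g y)
    rw [e1, e2]
    nlinarith
  have h3 : 2 * ∫⁻ y : Fin N → ℝ, ENNReal.ofReal (Real.exp (-g y)) ≤ 2 * ∫⁻ y, F y := by
    rw [← lintegral_const_mul' _ _ (by simp), two_mul (∫⁻ y, F y)]
    calc ∫⁻ y : Fin N → ℝ, 2 * ENNReal.ofReal (Real.exp (-g y))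
        ≤ ∫⁻ y, (F y + F (-y)) := lintegral_mono h2
      _ = (∫⁻ y, F y) + ∫⁻ y, F (-y) := lintegral_add_left hFm _
      _ = _ := by rw [h1]
  exact (ENNReal.mul_le_mul_iff_right (by simp) (by simp)).1 h3

theorem center_stmt (h : SymStmt) : CenterStmt := by
  intro N K hconv hK hint c hc
  have hne : K.Nonempty := hint.mono interior_subset
  set K0 : Set (Fin N → ℝ) := (fun x => x - c) '' K with hK0
  have hK0c : IsCompact K0 := hK.image (by fun_prop)
  have hpre : K0 = (fun x => x + c) ⁻¹' K := by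
    ext x
    constructor
    · rintro ⟨u, hu, rfl⟩
      simpa using hu
    · intro hx
      exact ⟨x + c, hx, by simp⟩
  have hconv0 : Convex ℝ K0 := by
    have := hconv.translate (-c)
    have e : K0 = (fun x => -c + x) '' K := by
      rw [hK0]
      refine image_congr fun x _ => ?_
      abel
    rw [e]; exact this
  have hint0 : (interior K0).Nonempty := by
    obtain ⟨x, hx⟩ := hint
    refine ⟨x - c, ?_⟩
    rw [hpre, mem_interior_iff_mem_nhds]
    have hcont : ContinuousAt (fun x : Fin N → ℝ => x + c) (x - c) := by fun_prop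
    refine hcont.preimage_mem_nhds ?_
    simpa using mem_interior_iff_mem_nhds.1 hx
  have hs0 : ∀ x ∈ K0, -x ∈ K0 := by
    rintro _ ⟨u, hu, rfl⟩
    refine ⟨(2 : ℝ) • c - u, hc u hu, ?_⟩
    ext i
    simp only [Pi.sub_apply, Pi.smul_apply, Pi.neg_apply, smul_eq_mul]
    ring
  have hvol : volume K0 = volume K := by
    rw [hpre]; exact measure_preimage_add_right volume c K
  refine (h N K0 hconv0 hK0c hint0 hs0).trans ?_
  rw [hvol]
  refine mul_le_mul_right ?_ _
  refine (avg_Center (fun y => sSup ((fun x : Fin N → ℝ => ∑ i, x i * y i) '' K0))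
    (cont_Center hK0c) (fun y => by rw [even_Center hs0 y]) c).trans ?_
  exact lintegral_mono fun y => ENNReal.ofReal_le_ofReal
    (Real.exp_le_exp.2 (neg_le_neg (shift_Center hK hne c y)))

end Pool.Agent.MP_5f4cdd_gt.LJ
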