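import Pool.Agent.MP_5f4cdd_gt.LJ.All2

set_option autoImplicit false
open MeasureTheory ENNReal

namespace Pool.Agent.MP_5f4cdd_gt.LJ.Cor

theorem symmetric (n : ℕ) (K : Set (Fin n → ℝ)) (hc : Convex ℝ K) (hK : IsCompact K)
    (hi : (interior K).Nonempty) (hs : ∀ x ∈ K, -x ∈ K) :
    (∀ p : ℝ, 0 < p →
      (4 : ℝ≥0∞) ^ n ≤ volume K * ∫⁻ y : Fin n → ℝ, ENNReal.ofReal
        (((∫ x in K, Real.exp (p * ∑ i, x i * y i)) / (volume K).toReal) ^ (-(1 / p)))) ∧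
    (4 : ℝ≥0∞) ^ n ≤ volume K * ∫⁻ y : Fin n → ℝ, ENNReal.ofReal
        (Real.exp (-(sSup ((fun x : Fin n → ℝ => ∑ i, x i * y i) '' K)))) := by
  have h := Pool.Agent.MP_5f4cdd_gt.LJ.sym_mahler n K hc hK hi hs
  refine ⟨fun p hp => h.trans (mul_le_mul' le_rfl (lintegral_mono fun y => ?_)), h⟩
  exact ENNReal.ofReal_le_ofReal (Pool.Agent.MP_5f4cdd_gt.LJ.mahler_p_ge n K hK hi hp y)

theorem asym_bound (n : ℕ) (K : Set (Fin n → ℝ)) (hc : Convex ℝ K) (hK : IsCompact K)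
    (hi : (interior K).Nonempty) (a : ℝ) (ha : 1 ≤ a) (hs : ∀ x ∈ K, -(a⁻¹ • x) ∈ K) :
    (∀ p : ℝ, 0 < p →
      ENNReal.ofReal ((2 + 2 / a) ^ n)
        ≤ volume K * ∫⁻ y : Fin n → ℝ, ENNReal.ofReal
        (((∫ x in K, Real.exp (p * ∑ i, x i * y i)) / (volume K).toReal) ^ (-(1 / p)))) ∧
    ENNReal.ofReal ((2 + 2 / a) ^ n)
      ≤ volume K * ∫⁻ y : Fin n → ℝ, ENNReal.ofReal
        (Real.exp (-(sSup ((fun x : Fin n → ℝ => ∑ i, x i * y i) '' K)))) := by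
  have h := Pool.Agent.MP_5f4cdd_gt.LJ.asym_mahler n K hc hK hi a ha hs
  refine ⟨fun p hp => h.trans (mul_le_mul' le_rfl (lintegral_mono fun y => ?_)), h⟩
  exact ENNReal.ofReal_le_ofReal (Pool.Agent.MP_5f4cdd_gt.LJ.mahler_p_ge n K hK hi hp y)

theorem diff_body (n : ℕ) (K : Set (Fin n → ℝ)) (hc : Convex ℝ K) (hK : IsCompact K)
    (hi : (interior K).Nonempty) :
    (∀ p : ℝ, 0 < p →
      (8 : ℝ≥0∞) ^ n * volume K ≤ volume {z : Fin n → ℝ | ∃ x ∈ K, ∃ y ∈ K, z = x - y} *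
        (volume K * ∫⁻ y : Fin n → ℝ, ENNReal.ofReal
          (((∫ x in K, Real.exp (p * ∑ i, x i * y i)) / (volume K).toReal) ^ (-(1 / p))))) ∧
    (8 : ℝ≥0∞) ^ n * volume K ≤ volume {z : Fin n → ℝ | ∃ x ∈ K, ∃ y ∈ K, z = x - y} *
      (volume K * ∫⁻ y : Fin n → ℝ, ENNReal.ofReal
        (Real.exp (-(sSup ((fun x : Fin n → ℝ => ∑ i, x i * y i) '' K))))) := by
  have h0 := Pool.Agent.MP_5f4cdd_gt.LJ.diff_mahler n K hc hK hi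
  have h : (8 : ℝ≥0∞) ^ n * volume K ≤ volume {z : Fin n → ℝ | ∃ x ∈ K, ∃ y ∈ K, z = x - y} *
      (volume K * ∫⁻ y : Fin n → ℝ, ENNReal.ofReal
        (Real.exp (-(sSup ((fun x : Fin n → ℝ => ∑ i, x i * y i) '' K))))) := by
    rw [mul_comm (volume K), ← mul_assoc]
    exact mul_le_mul' h0 le_rfl
  refine ⟨fun p hp => h.trans (mul_le_mul' le_rfl (mul_le_mul' le_rfl
    (lintegral_mono fun y => ?_))), h⟩
  exact ENNReal.ofReal_le_ofReal (Pool.Agent.MP_5f4cdd_gt.LJ.mahler_p_ge n K hK hi hp y)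

end Pool.Agent.MP_5f4cdd_gt.LJ.Cor
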